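import Pool.Agent.helper90.MS.UNI
import Pool.Agent.helper85.MS.UNQ
import Pool.Agent.helper53.MS.BAS
import Pool.Agent.helper53.MS.IDB
import Pool.Agent.helper53.MS.GRP
import Pool.Agent.helper35.MS.EXS
import Pool.Agent.helper90.MS.EXP
import Pool.Agent.helper50.MS.CIN
import Pool.Agent.helper35.MS.ST0
import Pool.Agent.helper57.MS.ST1
import Pool.Agent.helper39.MS.ST2
import Pool.Agent.helper79.MS.STEP
import Pool.Agent.helper10.MS.LNE
import Pool.Agent.helper72.MS.STAR
import Pool.Agent.helper11.MS.HVN
import Pool.Agent.helper34.MS.HMI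
import Pool.Agent.helper60.MS.INS
import Pool.Agent.helper45.MS.IN2
import Pool.Agent.helper32.MS.ITR
import Pool.Agent.helper32.MS.ITU
import Pool.Agent.helper54.MS.HUL
import Pool.Agent.helper3.MS.TH1R
import Pool.Agent.helper49.MS.SRK
import Pool.Agent.helper82.MS.TH1
import Pool.Agent.helper6.MS.SPA
import Pool.Agent.helper39.MS.EXL
import Pool.Agent.helper72.MS.LKL
import Pool.Agent.helper72.MS.FSE
import Pool.Agent.helper98.MS.MEET
import Pool.Agent.helper10.MS.TH2R
import Pool.Agent.helper40.MS.TH2
import Pool.Agent.helper57.MS.STC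
import Pool.Agent.helper35.MS.DEC
import Pool.Agent.helper79.MS.RES
import Pool.Agent.helper2.MS.PRT
import Pool.Agent.helper74.MS.PVN
import Pool.Agent.helper75.MS.PMI
import Pool.Agent.helper83.MS.PUL
import Pool.Agent.helper90.MS.INM
import Pool.Agent.helper67.MS.TH3R
import Pool.Agent.helper47.MS.TH3
import Pool.Agent.helper76.MS.QMT
import Pool.Agent.helper32.MS.QDS
import Pool.Agent.helper82.MS.QTP
import Pool.Agent.helper77.MS.QFI
import Pool.Agent.helper45.MS.BPE
import Pool.Agent.helper29.MS.RDC
import Pool.Agent.helper52.MS.TH5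
import Pool.Agent.helper31.MS.BLK
import Pool.Agent.helper50.MS.SS4
import Pool.Agent.helper92.MS.TWO
import Pool.Agent.helper3.MS.TH4
import Pool.Agent.helper49.MS.FIN
import Pool.Agent.helper34.MS.UMC

/-!
# Full minors for families with at most two partitions, every order, every field

Q1 of MP_b48e27_co for all orders `d`:
* over every field for all families `R` with at most two members;
* over all fields in which `l! ≠ 0` for all separated families `R`;
together with two general facts (every field): a tensor of small `R`-rank and small `R'`-rank has small rank with respect to the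
common refinements of the members of `R` and `R'`; and Q1 for all families with at most `m` members follows from Q1 for
one family of `m` bipartitions of `2 ^ m` directions.

Proof: in an ultraproduct the internal functions of several variables form a system of algebras closed under
fixing a variable; functions have unique expansions with coefficients in bases modulo decomposable functions. The
coefficients are extracted from the sums of the products of `T` at `l` permuted points, which vanish if all
minors with sides at most `l` have small rank.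
-/

set_option autoImplicit false

open Finset

namespace Pool.Agent.Results.MP_b48e27_co.AtMostTwoPartitions

open Pool.Agent.RRank Pool.Agent.helper57.MS

theorem hUNQ : UNQ_stmt := UNQ UNI

theorem hEXP : EXP_stmt := EXP GRP EXS

theorem hSTAR : STAR_stmt := STAR BAS IDB hEXP (STEP ST0 (ST1 hUNQ CIN) ST2) LNE

theorem hTH1 : TH1_stmt := TH1 (TH1R (HMI HVN) HUL (IN2 INS) hSTAR ITR) SRK

theorem hMEET : MEET_stmt := MEET hUNQ BAS IDB GRP (EXL EXS) LKL FSE LNE

theorem hTH2R : TH2R_stmt := TH2R INS ITU hMEET ITR SRK

theorem hTH3R : TH3R_stmt :=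
  TH3R (PMI PVN) PUL RES (DEC BAS IDB hEXP (STC hUNQ CIN)) (PRT BAS IDB hEXP RES) (INM hMEET)
    (IN2 INS) ITR

theorem hTH5 : TH5_stmt := TH5 (QFI (QMT hTH2R SRK) (QDS SRK) QTP) (RDC BPE)

theorem hTH4 : TH4_stmt := TH4 (TWO (TH3 hTH3R SRK) (SS4 BPE) BLK) hTH5

/-- (1) There is `G` such that for all orders `d` and all sizes `l`, for every family `R` with at most two members
over every field, and for every separated family `R` over every field with `l! ≠ 0`, every order-`d` tensor of `R`-rank at
least `G d l` has a minor with all sides at most `l` and `R`-rank at least `l`. (2) Examples of separated families.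
(3) Small rank with respect to two families implies small rank with respect to their common refinements. (4) The
property Q1 for the universal family of `m` bipartitions implies it for all families with at most `m` members. -/
theorem result :
    (∃ G : ℕ → ℕ → ℕ, ∀ (d l : ℕ), 0 < d → ∀ (R : Set (IndexPartition d)), R.Nonempty →
      ∀ (K : Type) [Field K], (R.ncard ≤ 2 ∨ ((l.factorial : K) ≠ 0 ∧ Sep R)) →
      ∀ (Q : Fin d → Type) [∀ α, Finite (Q α)] (T : ((α : Fin d) → Q α) → K),
      (G d l : ℕ∞) ≤ rank R T →
      ∃ X : (α : Fin d) → Finset (Q α), (∀ α, (X α).card ≤ l) ∧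
        (l : ℕ∞) ≤ rank R (minor T X)) ∧
    ((∀ (d : ℕ) (A : Finset (Fin d)), Even A.card → Sep (RA A)) ∧
      RA (univ : Finset (Fin 4)) = slices 4) ∧
    (∃ F : ℕ → ℕ → ℕ, ∀ (d r : ℕ), 0 < d → ∀ (R R' : Set (IndexPartition d)) (K : Type) [Field K]
      (Q : Fin d → Type) (T : ((α : Fin d) → Q α) → K), rank R T ≤ r → rank R' T ≤ r →
      rank (meet R R') T ≤ F d r) ∧
    (∀ (m : ℕ) (𝓚 : ℕ → (K : Type) → Field K → Prop), Q1F 𝓚 (UM m) → ∀ (d : ℕ), 0 < d →
      ∀ R : Set (IndexPartition d), R.Nonempty → R.ncard ≤ m → Q1F 𝓚 R) :=
  ⟨FIN hTH4 hTH1, SPA, (TH2 hTH2R SRK).1, UMC hTH5 BLK (QDS SRK) BPE⟩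

end Pool.Agent.Results.MP_b48e27_co.AtMostTwoPartitions
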