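import Pool.Agent.helper12.IM.FLX
import Pool.Agent.helper12.IM.TPO
import Pool.Agent.helper16.IM.SPD
import Pool.Agent.helper20.IM.OVD
import Pool.Agent.helper21.IM.FNS
import Pool.Agent.helper21.IM.NFS
import Pool.Agent.helper22.IM.STP
import Pool.Agent.helper24.IM.EQM
import Pool.Agent.helper24.IM.FIN
import Pool.Agent.helper24.IM.FZN
import Pool.Agent.helper25.IM.FVT
import Pool.Agent.helper25.IM.SWX
import Pool.Agent.helper27.IM.CPX
import Pool.Agent.helper27.IM.SP0
import Pool.Agent.helper30.IM.NFM
import Pool.Agent.helper31.IM.SLF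
import Pool.Agent.helper32.IM.INT
import Pool.Agent.helper32.IM.UNB
import Pool.Agent.helper33.IM.OVS
import Pool.Agent.helper33.IM.ROW
import Pool.Agent.helper33.IM.SPR
import Pool.Agent.helper34.IM.BPO
import Pool.Agent.helper43.IM.ITR
import Pool.Agent.helper43.IM.ZER
import Pool.Agent.helper46.IM.UFS
import Pool.Agent.helper51.IM.EXB
import Pool.Agent.helper51.IM.NFC
import Pool.Agent.helper51.IM.UPL
import Pool.Agent.helper52.IM.LOS
import Pool.Agent.helper57.IM.GLO
import Pool.Agent.helper57.IM.UAC
import Pool.Agent.helper59.IM.CV3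
import Pool.Agent.helper59.IM.NFG
import Pool.Agent.helper59.IM.NFV
import Pool.Agent.helper6.IM.STA
import Pool.Agent.helper63.IM.INA
import Pool.Agent.helper63.IM.NFR
import Pool.Agent.helper64.IM.UPG
import Pool.Agent.helper7.IM.OVG
import Pool.Agent.helper70.IM.STX
import Pool.Agent.helper77.IM.FSD
import Pool.Agent.helper78.IM.GBL
import Pool.Agent.helper78.IM.UBL
import Pool.Agent.helper79.IM.NXT
import Pool.Agent.helper82.IM.ALL
import Pool.Agent.helper82.IM.UP0
import Pool.Agent.helper9.IM.EXI
import Pool.Agent.helper90.IM.NSZ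
import Pool.Agent.helper90.IM.OVN
import Pool.Agent.helper91.IM.GHO
import Pool.Agent.helper91.IM.LWF
import Pool.Agent.helper92.IM.AFD
import Pool.Agent.helper92.IM.CEX
import Pool.Agent.helper92.IM.DST
import Pool.Agent.helper97.IM.CSB
import Pool.Agent.helper97.IM.LS3
import Pool.Agent.helper11.MR.STR
import Pool.Agent.helper20.MR.BALL
import Pool.Agent.helper20.MR.CNV
import Pool.Agent.helper30.MR.R2
import Pool.Agent.helper34.MR.MRG
import Pool.Agent.helper46.MR.B3
import Pool.Agent.helper46.MR.KB2
import Pool.Agent.helper46.MR.KT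
import Pool.Agent.helper46.MR.R1
import Pool.Agent.helper52.MR.OPT
import Pool.Agent.helper54.MR.U1
import Pool.Agent.helper54.MR.U2
import Pool.Agent.helper61.MR.CMP
import Pool.Agent.helper61.MR.LW
import Pool.Agent.helper64.MR.KB1
import Pool.Agent.helper70.MR.B1S
import Pool.Agent.helper70.MR.KA
import Pool.Agent.helper70.MR.S1
import Pool.Agent.helper70.MR.S2
import Pool.Agent.helper72.MR.B1
import Pool.Agent.helper72.MR.B2
import Pool.Agent.helper72.MR.BT
import Pool.Agent.helper72.MR.BX
import Pool.Agent.helper72.MR.CASE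
import Pool.Agent.helper72.MR.CHB
import Pool.Agent.helper72.MR.CUB
import Pool.Agent.helper72.MR.FS
import Pool.Agent.helper72.MR.LI
import Pool.Agent.helper72.MR.R0
import Pool.Agent.helper72.MR.SL3
import Pool.Agent.helper72.MR.TGT
import Pool.Agent.helper72.MR.U3
import Pool.Agent.helper72.MR.U4
import Pool.Agent.helper79.MR.R3
import Pool.Agent.helper79.MR.SYM
import Pool.Agent.helper82.MR.R3A
import Pool.Agent.helper90.MR.P1
import Pool.Agent.helper90.MR.RAM
import Pool.Agent.helper91.MR.BLK
import Pool.Agent.helper91.MR.KALL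
import Pool.Agent.helper92.MR.EXT
import Pool.Agent.helper92.MR.R3B

/-!
# Order three, every field

Q1 of MP_b48e27_co for order `d = 3`, for every family `R` of partitions, over every field, with a bound `G l` which
depends only on `l`.

Proof: the theorem for tensors with boundedly many values (Ramsey argument and explicit words, modules `MR`) and a
reduction to it (modules `IM`). Over an algebraically closed field, let `l` be the first size for which the theorem
fails; an ultraproduct gives a tensor on infinite index sets which is no finite sum of slices and has no full minor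
with sides `l`. A minor with a generic row in each direction shows that the tensor lies in every valuation ring which
contains the functions of one variable, so it satisfies a monic equation whose coefficients are finite sums of products
of functions of one variable. These functions of one variable are then made finitely valued by specialisation of
rows (if the germs of rows span a space of infinite dimension) or of blocks of rows (otherwise).
-/

set_option autoImplicit false

open Finset

namespace Pool.Agent.Results.MP_b48e27_co.OrderThreeAllFields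

open Pool.Agent.RRank Pool.Agent.helper35.MR Pool.Agent.helper26.IM

/-- the theorem for the slice rank and tensors with boundedly many values -/
theorem sl3 : SL3_stmt :=
  have hEXT : EXT_stmt := EXT TGT
  have hBX : BX_stmt := BX BT hEXT CHB LI OPT
  have hSTR : STR_stmt := STR (S1 MRG) (S2 MRG) SYM
  have hKALL : KALL_stmt :=
    KALL (KA CHB LI hEXT OPT KT) (KB1 CHB LI hEXT OPT KT) (KB2 CHB LI hEXT OPT KT) SYM
  have hBALL : BALL_stmt :=
    BALL (B1 hBX) (B1S MRG) (B2 hBX) (B3 hBX) (U1 hBX) (U2 hBX) (U3 hEXT CHB LI OPT) (U4 TGT) SYM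
  have hCASE : CASE_stmt := CASE hSTR hKALL hBALL SYM
  SL3 (P1 RAM (BLK CUB) LW) CNV hCASE CMP FS

/-- the reduction -/
theorem all : ALL_stmt :=
  have hCPX : CPX_stmt := CPX CV3
  have hNFG : NFG_stmt := NFG NSZ
  have hNFS : NFS_stmt := NFS NFV CEX NFM hNFG
  have hFVT : FVT_stmt := FVT sl3 CV3 NFR
  have hUPG : UPG_stmt := UPG hCPX LS3 LOS NFC
  have hUP0 : UP0_stmt := UP0 hUPG UAC
  have hUPL : UPL_stmt := UPL hUPG UAC
  have hBPO : BPO_stmt := BPO hCPX FLX NFV LOS NFC CHB
  have hTPO : TPO_stmt := TPO hBPO hNFG FLX NFV LOS NFC CHB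
  have hINT : INT_stmt := INT EQM (INA hTPO)
  have hGBL : GBL_stmt := GBL (UBL EXB) ZER
  have hFIN : FIN_stmt := FIN hFVT LWF FNS
  have hSTP : STP_stmt := STP (GLO LOS NFC) EXI (GHO hNFS NFC)
  have hCSB : CSB_stmt := CSB hGBL (SP0 NSZ) hFIN ITR hSTP
  have hOVG : OVG_stmt := OVG (OVS OVN OVD) EXI
  have hSPR : SPR_stmt := SPR UNB (SPD hOVG)
  have hSTX : STX_stmt := STX FSD hCPX hSPR DST (ROW hNFS LOS NFC) hUPL
  have hNXT : NXT_stmt := NXT UFS hCSB FZN hSTX SWX
  have hSTA : STA_stmt := STA hUP0 hINT hNXT
  have hAFD : AFD_stmt := AFD hCPX NFM NFC hSTA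
  ALL R0 R1 R2 (R3 R3A R3B) (SLF CV3 hAFD FS)

/-- Q1 for order three: there is a function `G` such that for every nonempty family `R` of partitions of the
three indices, every field `K` and every tensor of `R`-rank at least `G l` there is a minor with all sides of
size at most `l` and of `R`-rank at least `l`. -/
theorem result : ∃ G : ℕ → ℕ, ∀ (R : Set (IndexPartition 3)), R.Nonempty →
    ∀ (K : Type) [Field K] (Q : Fin 3 → Type) [∀ α, Finite (Q α)] (T : ((α : Fin 3) → Q α) → K)
    (l : ℕ), (G l : ℕ∞) ≤ rank R T →
    ∃ X : (α : Fin 3) → Finset (Q α), (∀ α, (X α).card ≤ l) ∧ (l : ℕ∞) ≤ rank R (minor T X) :=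
  all

end Pool.Agent.Results.MP_b48e27_co.OrderThreeAllFields
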