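import Mathlib
import Pool.Agent.helper26.RRank

/-!
# Full-rank minors for the partition rank in positive characteristic

For a field of characteristic `p > 0`, a tensor of order `d` whose partition rank is at least
`(((p - 1) (l - 1) + 1)!) ^ (d - 1)` has a minor all of whose sides have size at most
`(p - 1) (l - 1) + 1` and whose partition rank is at least `l`.  For `p = 2` the sides have size
at most `l`, which is what the question asks for.

The proof uses the permanent-like sums
`per T xs = ∑_σ ∏_i T (α ↦ xs α (σ α i))`, where `σ` runs over families of permutations of the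
rows, normalised by `σ α₀ = 1`.
-/

set_option autoImplicit false

open Finset

namespace Pool.Agent.Results.MP_b48e27_co.PartitionRankCharP

open Pool.Agent.RRank

universe u v

section Group

variable {K : Type v} [Field K]

/-- The sum over a finite group of a function that is invariant under right multiplication by
an element of order `p` vanishes in characteristic `p`. -/
lemma sum_eq_zero_of_invariant {G : Type*} [Group G] [Fintype G] {p : ℕ} [CharP K p] (g : G)
    (hg : orderOf g = p) (F : G → K) (hF : ∀ σ, F (σ * g) = F σ) : ∑ σ, F σ = 0 := by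
  classical
  have h1 : ∀ (n : ℕ) (σ : G), F (σ * g ^ n) = F σ := by
    intro n
    induction n with
    | zero => intro σ; simp
    | succ n ih => intro σ; rw [pow_succ, ← mul_assoc, hF, ih]
  have h2 : ∀ (σ τ : G), (σ : G ⧸ Subgroup.zpowers g) = τ → F σ = F τ := by
    intro σ τ h
    rw [QuotientGroup.eq] at h
    obtain ⟨n, hn⟩ := (mem_zpowers_iff_mem_range_orderOf.1 h : _) |> Finset.mem_image.1
    have h3 : τ = σ * g ^ n := by rw [hn.2]; group
    rw [h3, h1]
  rw [← Finset.sum_fiberwise (s := univ) (g := fun σ : G => (σ : G ⧸ Subgroup.zpowers g)) (f := F)]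
  apply Finset.sum_eq_zero
  intro q _
  have h3 : ∀ σ ∈ univ.filter (fun σ : G => (σ : G ⧸ Subgroup.zpowers g) = q),
      F σ = F q.out := by
    intro σ hσ
    apply h2
    rw [Finset.mem_filter] at hσ
    rw [hσ.2]
    exact (Quotient.out_eq' q).symm
  rw [Finset.sum_congr rfl h3, Finset.sum_const]
  have h4 : (univ.filter (fun σ : G => (σ : G ⧸ Subgroup.zpowers g) = q)).card = p := by
    have h5 := QuotientGroup.card_preimage_mk (Subgroup.zpowers g) {q}
    have h6 : Nat.card ({q} : Set (G ⧸ Subgroup.zpowers g)) = 1 := Nat.card_unique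
    rw [Nat.card_zpowers, hg, h6, mul_one] at h5
    rw [← h5]
    exact (Nat.subtype_card _ (fun x => by simp)).symm
  rw [h4, nsmul_eq_mul, CharP.cast_eq_zero, zero_mul]

/-- For a set `A` of prime size `p` there is a permutation of order `p` that moves only elements
of `A` and preserves `A`. -/
lemma exists_perm_of_card {ι : Type*} [Fintype ι] [DecidableEq ι] {p : ℕ} (hp : p.Prime)
    (A : Finset ι) (hA : A.card = p) :
    ∃ ρ : Equiv.Perm ι, orderOf ρ = p ∧ (∀ i, i ∉ A → ρ i = i) ∧ ∀ i ∈ A, ρ i ∈ A := by
  obtain ⟨ρ, h1, h2⟩ := A.exists_cycleOn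
  have h3 : ∀ i, i ∉ A → ρ i = i := by
    intro i hi
    by_contra hne
    exact hi (h2 (Equiv.Perm.mem_support.2 hne))
  refine ⟨ρ, ?_, h3, fun i hi => ?_⟩
  · have hfact := Fact.mk hp
    apply orderOf_eq_prime
    · ext i
      by_cases hi : i ∈ A
      · have := h1.pow_card_apply hi
        rw [hA] at this
        simpa using this
      · rw [Equiv.Perm.one_apply]
        have : ∀ n : ℕ, (ρ ^ n) i = i := by
          intro n
          induction n with
          | zero => rfl
          | succ n ih => rw [pow_succ, Equiv.Perm.mul_apply, h3 i hi, ih]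
        exact this p
    · intro h
      have h4 : 1 < A.card := by rw [hA]; exact hp.one_lt
      obtain ⟨a, ha, b, hb, hab⟩ := Finset.one_lt_card.1 h4
      obtain ⟨n, hn⟩ := h1.2 (by exact_mod_cast ha) (by exact_mod_cast hb)
      rw [h, one_zpow, Equiv.Perm.one_apply] at hn
      exact hab hn
  · exact_mod_cast (h1.apply_mem_iff (x := i)).2 (by exact_mod_cast hi)

end Group

section Per

variable {d : ℕ} {Q : Fin d → Type u} {K : Type v} [Field K]

/-- The families of permutations `σ` of `ι` with `σ α₀ = 1`. -/
def perms (α₀ : Fin d) (ι : Type) [Fintype ι] [DecidableEq ι] :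
    Finset (Fin d → Equiv.Perm ι) :=
  Fintype.piFinset fun α => if α = α₀ then {1} else univ

lemma mem_perms {α₀ : Fin d} {ι : Type} [Fintype ι] [DecidableEq ι]
    {σ : Fin d → Equiv.Perm ι} : σ ∈ perms α₀ ι ↔ σ α₀ = 1 := by
  unfold perms
  rw [Fintype.mem_piFinset]
  constructor
  · intro h
    simpa using h α₀
  · intro h α
    by_cases hα : α = α₀
    · subst hα; simpa using h
    · rw [if_neg hα]; exact Finset.mem_univ _

lemma card_perms (α₀ : Fin d) (ι : Type) [Fintype ι] [DecidableEq ι] :
    (perms α₀ ι).card = (Fintype.card ι).factorial ^ (d - 1) := by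
  unfold perms
  rw [Fintype.card_piFinset, ← Finset.mul_prod_erase _ _ (Finset.mem_univ α₀)]
  rw [if_pos rfl, Finset.card_singleton, one_mul]
  have h : ∀ α ∈ univ.erase α₀, (if α = α₀ then ({1} : Finset (Equiv.Perm ι)) else univ).card =
      (Fintype.card ι).factorial := by
    intro α hα
    rw [if_neg (Finset.ne_of_mem_erase hα), Finset.card_univ, Fintype.card_perm]
  rw [Finset.prod_congr rfl h, Finset.prod_const, Finset.card_erase_of_mem (Finset.mem_univ _),
    Finset.card_univ, Fintype.card_fin]

/-- The permanent-like sum. -/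
def per (α₀ : Fin d) (T : ((α : Fin d) → Q α) → K) {ι : Type} [Fintype ι] [DecidableEq ι]
    (xs : (α : Fin d) → ι → Q α) : K :=
  ∑ σ ∈ perms α₀ ι, ∏ i : ι, T (fun α => xs α (σ α i))

/-- **Vanishing.**  The permanent-like sum of size greater than `r (p - 1)` vanishes on tensors
of partition rank at most `r`. -/
lemma per_eq_zero {p : ℕ} (hp : p.Prime) [CharP K p] (α₀ : Fin d)
    {T : ((α : Fin d) → Q α) → K} {r : ℕ} (hT : SumOf (twoParts d) T r)
    {ι : Type} [Fintype ι] [DecidableEq ι] (hr : r * (p - 1) < Fintype.card ι)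
    (xs : (α : Fin d) → ι → Q α) : per α₀ T xs = 0 := by
  classical
  obtain ⟨t, ht, hsum⟩ := hT
  choose I hI hIc f g hf hg hfg using fun i => exists_mul_of_rankLEOne α₀ (ht i)
  have e1 : per α₀ T xs = ∑ c : ι → Fin r, ∑ σ ∈ perms α₀ ι,
      ∏ i : ι, (f (c i) (fun α => xs α (σ α i)) * g (c i) (fun α => xs α (σ α i))) := by
    unfold per
    rw [Finset.sum_comm]
    refine Finset.sum_congr rfl fun σ _ => ?_
    have e2 : ∀ i : ι, T (fun α => xs α (σ α i)) =
        ∑ j ∈ (univ : Finset (Fin r)),
          f j (fun α => xs α (σ α i)) * g j (fun α => xs α (σ α i)) := by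
      intro i
      rw [hsum]
      exact Finset.sum_congr rfl fun j _ => hfg j _
    rw [Finset.prod_congr rfl fun i _ => e2 i, Finset.prod_univ_sum, Fintype.piFinset_univ]
  rw [e1]
  apply Finset.sum_eq_zero
  intro c _
  -- a value taken at least `p` times
  obtain ⟨j, hj⟩ := Fintype.exists_lt_card_fiber_of_mul_lt_card (f := c) (n := p - 1)
    (by rw [Fintype.card_fin]; exact hr)
  obtain ⟨A, hA1, hA2⟩ := Finset.exists_subset_card_eq
    (show p ≤ (univ.filter (fun i => c i = j)).card by omega)
  have hcA : ∀ i ∈ A, c i = j := fun i hi => (Finset.mem_filter.1 (hA1 hi)).2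
  obtain ⟨ρ, hρ1, hρ2, hρ3⟩ := exists_perm_of_card hp A hA2
  have hcρ : ∀ i, c (ρ i) = c i := by
    intro i
    by_cases hi : i ∈ A
    · rw [hcA i hi, hcA _ (hρ3 i hi)]
    · rw [hρ2 i hi]
  -- the group element
  obtain ⟨h, hh⟩ : ∃ h : Fin d → Equiv.Perm ι, h = fun α => if α ∈ I j then 1 else ρ := ⟨_, rfl⟩
  -- the sum over the whole group of an invariant function
  obtain ⟨α₁, hα₁⟩ := hIc j
  rw [Finset.mem_compl] at hα₁
  have hord : orderOf h = p := by
    have hfact := Fact.mk hp
    apply orderOf_eq_prime
    · funext α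
      rw [Pi.pow_apply, hh]
      by_cases hα : α ∈ I j
      · simp [hα]
      · simp only [if_neg hα, Pi.one_apply]
        rw [← hρ1]; exact pow_orderOf_eq_one ρ
    · intro h1
      have h2 := congrFun h1 α₁
      rw [hh] at h2
      simp only [if_neg hα₁, Pi.one_apply] at h2
      rw [h2, orderOf_one] at hρ1
      exact hp.one_lt.ne hρ1
  have hα₀ : h α₀ = 1 := by rw [hh]; simp [hI j]
  have key := sum_eq_zero_of_invariant (K := K) (p := p) h hord
    (fun σ => if σ α₀ = 1 then
      ∏ i : ι, (f (c i) (fun α => xs α (σ α i)) * g (c i) (fun α => xs α (σ α i))) else 0) ?_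
  · rw [← key, ← Finset.sum_filter]
    refine Finset.sum_congr ?_ fun _ _ => rfl
    ext σ
    rw [mem_perms, Finset.mem_filter]
    simp
  · intro σ
    rw [Pi.mul_apply, hα₀, mul_one]
    by_cases hσ : σ α₀ = 1
    swap
    · rw [if_neg hσ, if_neg hσ]
    rw [if_pos hσ, if_pos hσ, Finset.prod_mul_distrib, Finset.prod_mul_distrib]
    congr 1
    · refine Finset.prod_congr rfl fun i _ => ?_
      by_cases hi : i ∈ A
      · apply hf (c i)
        intro α hα
        rw [hcA i hi] at hα
        have h1 : h α = 1 := by rw [hh]; simp only; rw [if_pos (by exact_mod_cast hα)]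
        simp only [Pi.mul_apply, h1, mul_one]
      · have h1 : ∀ α, (h α) i = i := by
          intro α
          rw [hh]
          by_cases hα : α ∈ I j
          · simp [hα]
          · simp [hα, hρ2 i hi]
        congr 1
        funext α
        simp only [Pi.mul_apply, Equiv.Perm.mul_apply, h1]
    · rw [← Equiv.prod_comp ρ (fun i => g (c i) (fun α => xs α (σ α i)))]
      refine Finset.prod_congr rfl fun i _ => ?_
      rw [hcρ]
      by_cases hi : i ∈ A
      · apply hg (c i)
        intro α hα
        rw [hcA i hi] at hα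
        have h1 : h α = ρ := by
          rw [hh]; simp only; rw [if_neg]; simpa using hα
        simp only [Pi.mul_apply, Equiv.Perm.mul_apply, h1]
      · have h1 : ∀ α, (h α) i = i := by
          intro α
          rw [hh]
          by_cases hα : α ∈ I j
          · simp [hα]
          · simp [hα, hρ2 i hi]
        congr 1
        funext α
        simp only [Pi.mul_apply, Equiv.Perm.mul_apply, h1, hρ2 i hi]

/-- Add the row `x` to the rows `xs`. -/
def addRow {ι : Type} (x : (α : Fin d) → Q α) (xs : (α : Fin d) → ι → Q α) :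
    (α : Fin d) → Option ι → Q α :=
  fun α o => o.elim (x α) (xs α)

/-- The part of the sum in which the new row is matched with itself. -/
lemma sum_fixing (α₀ : Fin d) (T : ((α : Fin d) → Q α) → K) {ι : Type} [Fintype ι]
    [DecidableEq ι] (x : (α : Fin d) → Q α) (xs : (α : Fin d) → ι → Q α) :
    ∑ σ ∈ (perms α₀ (Option ι)).filter (fun σ => ∀ α, σ α none = none),
      ∏ o : Option ι, T (fun α => addRow x xs α (σ α o)) = T x * per α₀ T xs := by
  unfold per
  rw [Finset.mul_sum]
  symm
  refine Finset.sum_nbij (fun τ α => (τ α).optionCongr) ?_ ?_ ?_ ?_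
  · intro τ hτ
    rw [mem_perms] at hτ
    rw [Finset.mem_filter, mem_perms]
    refine ⟨?_, fun α => by simp⟩
    rw [hτ, Equiv.optionCongr_one]
  · intro τ _ τ' _ h
    funext α
    exact Equiv.optionCongr_injective (congrFun h α)
  · intro σ hσ
    rw [Finset.mem_coe, Finset.mem_filter, mem_perms] at hσ
    have h1 : ∀ α, (Equiv.removeNone (σ α)).optionCongr = σ α := by
      intro α
      rw [map_equiv_removeNone, hσ.2 α, Equiv.swap_self]
      exact one_mul _
    refine ⟨fun α => Equiv.removeNone (σ α), ?_, ?_⟩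
    · rw [Finset.mem_coe, mem_perms]
      apply Equiv.optionCongr_injective
      rw [h1, hσ.1, Equiv.optionCongr_one]
    · funext α
      exact h1 α
  · intro τ _
    rw [Fintype.prod_option]
    congr 1

/-- A term of the extended sum in which the new row is not matched with itself has partition
rank at most one as a function of the new row. -/
lemma rankLEOne_term (α₀ : Fin d) (T : ((α : Fin d) → Q α) → K) {ι : Type} [Fintype ι]
    [DecidableEq ι] (xs : (α : Fin d) → ι → Q α) {σ : Fin d → Equiv.Perm (Option ι)}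
    (hσ : σ α₀ = 1) (hne : ¬ ∀ α, σ α none = none) :
    RankLEOne (twoParts d)
      (fun x => ∏ o : Option ι, T (fun α => addRow x xs α (σ α o))) := by
  classical
  obtain ⟨I, hI⟩ : ∃ I : Finset (Fin d), I = univ.filter (fun α => σ α none = none) := ⟨_, rfl⟩
  have hI' : ∀ α, α ∈ I ↔ σ α none = none := by intro α; rw [hI]; simp
  have h1 : I.Nonempty := ⟨α₀, (hI' α₀).2 (by rw [hσ]; rfl)⟩
  have h2 : (Iᶜ).Nonempty := by
    push Not at hne
    obtain ⟨α, hα⟩ := hne
    exact ⟨α, by rw [Finset.mem_compl, hI']; exact hα⟩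
  have h3 := rankLEOne_mul (K := K) (Q := Q) h1 h2
    (f := fun x => T (fun α => addRow x xs α (σ α none)))
    (g := fun x => ∏ i : ι, T (fun α => addRow x xs α (σ α (some i)))) ?_ ?_
  · convert h3 using 1
    funext x
    rw [Fintype.prod_option]
  · intro x y hxy
    show T _ = T _
    congr 1
    funext α
    by_cases hα : σ α none = none
    · rw [hα]
      exact hxy α (by exact_mod_cast (hI' α).2 hα)
    · obtain ⟨i, hi⟩ := Option.ne_none_iff_exists'.1 hα
      rw [hi]
      rfl
  · intro x y hxy
    refine Finset.prod_congr rfl fun i _ => ?_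
    congr 1
    funext α
    by_cases hα : σ α (some i) = none
    · rw [hα]
      apply hxy α
      rw [Finset.mem_coe, Finset.mem_compl, hI']
      intro h
      have := (σ α).injective (h.trans hα.symm)
      simp at this
    · obtain ⟨k, hk⟩ := Option.ne_none_iff_exists'.1 hα
      rw [hk]
      rfl

/-- **Extension.**  If the sum does not vanish for `xs` and the partition rank of `T` is large,
then the sum does not vanish for some extension of `xs` by one row. -/
lemma exists_extension (α₀ : Fin d) (T : ((α : Fin d) → Q α) → K) {ι : Type} [Fintype ι]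
    [DecidableEq ι] (xs : (α : Fin d) → ι → Q α) (h : per α₀ T xs ≠ 0)
    (hrank : ((((Fintype.card ι + 1).factorial ^ (d - 1) : ℕ)) : ℕ∞) ≤ rank (twoParts d) T) :
    ∃ x : (α : Fin d) → Q α, per α₀ T (addRow x xs) ≠ 0 := by
  classical
  by_contra hcon
  push Not at hcon
  obtain ⟨rest, hrest⟩ : ∃ rest : Finset (Fin d → Equiv.Perm (Option ι)),
    rest = (perms α₀ (Option ι)).filter (fun σ => ¬ ∀ α, σ α none = none) := ⟨_, rfl⟩
  have h1 : ∀ x, T x = ∑ σ ∈ rest,
      (-(per α₀ T xs)⁻¹) * ∏ o : Option ι, T (fun α => addRow x xs α (σ α o)) := by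
    intro x
    have h2 := hcon x
    unfold per at h2
    rw [← Finset.sum_filter_add_sum_filter_not (perms α₀ (Option ι))
      (fun σ => ∀ α, σ α none = none), sum_fixing, ← hrest] at h2
    rw [← Finset.mul_sum]
    have h3 : ∑ σ ∈ rest, ∏ o : Option ι, T (fun α => addRow x xs α (σ α o)) =
      - (T x * per α₀ T xs) := by
      rw [eq_neg_iff_add_eq_zero, add_comm]; exact h2
    rw [h3]
    field_simp
  have h2 : SumOf (twoParts d) T rest.card := by
    refine SumOf.of_finset rest _ ?_ h1
    intro σ hσ
    rw [hrest, Finset.mem_filter, mem_perms] at hσ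
    apply (rankLEOne_term α₀ T xs hσ.1 hσ.2).smul
    intro P hP
    apply Finset.card_pos.1
    rw [show P.parts.card = 2 from hP]
    norm_num
  refine not_sumOf_of_le_rank hrank ?_ h2
  have h3 : rest ⊂ perms α₀ (Option ι) := by
    rw [hrest]
    refine ⟨Finset.filter_subset _ _, fun hsub => ?_⟩
    have h4 : (1 : Fin d → Equiv.Perm (Option ι)) ∈ perms α₀ (Option ι) := mem_perms.2 rfl
    have h5 := (Finset.mem_filter.1 (hsub h4)).2
    exact h5 fun α => rfl
  have h4 := Finset.card_lt_card h3
  rwa [card_perms, Fintype.card_option] at h4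

/-- A tensor of large partition rank has a nonvanishing sum of size `n`. -/
lemma exists_per_ne_zero (α₀ : Fin d) (T : ((α : Fin d) → Q α) → K) (n : ℕ)
    (hrank : (((n.factorial ^ (d - 1) : ℕ)) : ℕ∞) ≤ rank (twoParts d) T) :
    ∃ (ι : Type) (_ : Fintype ι) (_ : DecidableEq ι) (xs : (α : Fin d) → ι → Q α),
      Fintype.card ι = n ∧ per α₀ T xs ≠ 0 := by
  induction n with
  | zero =>
    refine ⟨Empty, inferInstance, inferInstance, fun α i => i.elim, rfl, ?_⟩
    have h1 : per α₀ T (fun α (i : Empty) => (i.elim : Q α)) = ((perms α₀ Empty).card : K) := by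
      unfold per
      simp
    rw [h1, card_perms]
    simp
  | succ n ih =>
    obtain ⟨ι, _, _, xs, h1, h2⟩ := ih (le_trans (by
      have : n.factorial ^ (d - 1) ≤ (n + 1).factorial ^ (d - 1) :=
        Nat.pow_le_pow_left (Nat.factorial_le (Nat.le_succ n)) _
      exact_mod_cast this) hrank)
    obtain ⟨x, hx⟩ := exists_extension α₀ T xs h2 (by rw [h1]; exact hrank)
    exact ⟨Option ι, inferInstance, inferInstance, addRow x xs, by
      rw [Fintype.card_option, h1], hx⟩

end Per

section Main

/-- Characteristic `p`, any order `d`. -/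
theorem main {p : ℕ} (hp : p.Prime) {K : Type v} [Field K] [CharP K p] {d : ℕ} (hd : 1 ≤ d)
    {Q : Fin d → Type u} (T : ((α : Fin d) → Q α) → K) (l : ℕ)
    (h : ((((p - 1) * (l - 1) + 1).factorial ^ (d - 1) : ℕ) : ℕ∞) ≤ rank (twoParts d) T) :
    ∃ X : (α : Fin d) → Finset (Q α), (∀ α, (X α).card ≤ (p - 1) * (l - 1) + 1) ∧
      (l : ℕ∞) ≤ rank (twoParts d) (minor T X) := by
  classical
  obtain ⟨ι, _, _, xs, h1, h2⟩ := exists_per_ne_zero (⟨0, hd⟩ : Fin d) T _ h
  refine ⟨fun α => univ.image (xs α), fun α => ?_, ?_⟩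
  · exact Finset.card_image_le.trans (by rw [Finset.card_univ, h1])
  · by_contra hcon
    push Not at hcon
    obtain ⟨r, hr, hsum⟩ := exists_sumOf_of_rank_lt hcon
    have h3 := per_eq_zero hp (⟨0, hd⟩ : Fin d) hsum (ι := ι) (by
      rw [h1]
      have : r ≤ l - 1 := by omega
      calc r * (p - 1) ≤ (l - 1) * (p - 1) := Nat.mul_le_mul_right _ this
        _ < (p - 1) * (l - 1) + 1 := by rw [mul_comm]; omega)
      (fun α i => ⟨xs α i, Finset.mem_image_of_mem _ (Finset.mem_univ i)⟩)
    exact h2 h3

/-- **Full-rank minors for the partition rank in positive characteristic.**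

Let `K` be a field of characteristic `p > 0` and let `R` be a family of partitions of the `d`
indices that contains all partitions into two parts and has only members with at least two
parts (for instance the family defining the partition rank; for `d = 3` this is the family
defining the slice rank).  For every `l ≥ 1`, a tensor of `R`-rank at least
`(((p - 1) (l - 1) + 1)!) ^ (d - 1)` has a minor with all sides of size at most
`(p - 1) (l - 1) + 1` and of `R`-rank at least `l`.  For `p = 2` the sides have size at
most `l`. -/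
theorem result :
    ∀ (p : ℕ), p.Prime → ∀ (K : Type v) [Field K] [CharP K p] (d : ℕ), 2 ≤ d →
      ∀ R : Set (IndexPartition d), twoParts d ⊆ R → (∀ P ∈ R, 2 ≤ P.parts.card) →
      ∀ (Q : Fin d → Type u) (T : ((α : Fin d) → Q α) → K) (l : ℕ),
        ((((p - 1) * (l - 1) + 1).factorial ^ (d - 1) : ℕ) : ℕ∞) ≤ rank R T →
        ∃ X : (α : Fin d) → Finset (Q α),
          (∀ α, (X α).card ≤ (p - 1) * (l - 1) + 1 ∧ (p = 2 → (X α).card ≤ l)) ∧
          (l : ℕ∞) ≤ rank R (minor T X) := by
  intro p hp K _ _ d hd R hR1 hR2 Q T l h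
  rw [rank_eq_rank_twoParts hR1 hR2] at h
  rcases Nat.eq_zero_or_pos l with rfl | hl
  · exact ⟨fun _ => ∅, fun _ => by simp, by simp⟩
  · obtain ⟨X, h1, h2⟩ := main hp (by omega) T l h
    refine ⟨X, fun α => ⟨h1 α, fun hp2 => ?_⟩, ?_⟩
    · have := h1 α
      subst hp2
      have h3 : (2 - 1) * (l - 1) + 1 = l := by omega
      rwa [h3] at this
    · rw [rank_eq_rank_twoParts hR1 hR2]
      exact h2

end Main

end Pool.Agent.Results.MP_b48e27_co.PartitionRankCharP
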