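import Pool.Agent.helper16.MR.CP
import Pool.Agent.helper24.MR.HLB
import Pool.Agent.helper25.MR.SA4
import Pool.Agent.helper25.MR.WC
import Pool.Agent.helper28.MR.FRM
import Pool.Agent.helper41.MR.RB
import Pool.Agent.helper44.MR.EXP
import Pool.Agent.helper46.MR.HV0
import Pool.Agent.helper46.MR.JC
import Pool.Agent.helper46.MR.KER
import Pool.Agent.helper59.MR.SAF
import Pool.Agent.helper60.MR.FS4
import Pool.Agent.helper61.MR.LW
import Pool.Agent.helper70.MR.PF
import Pool.Agent.helper70.MR.WCF
import Pool.Agent.helper71.MR.DT
import Pool.Agent.helper72.MR.CUB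
import Pool.Agent.helper82.MR.RG
import Pool.Agent.helper82.MR.RG3
import Pool.Agent.helper89.MR.CMR
import Pool.Agent.helper89.MR.SLC
import Pool.Agent.helper89.MR.TR
import Pool.Agent.helper90.MR.P1
import Pool.Agent.helper90.MR.RAM
import Pool.Agent.helper90.MR.WBF
import Pool.Agent.helper91.MR.BLK
import Pool.Agent.helper91.MR.WA
import Pool.Agent.helper97.MR.POS
import Pool.Agent.helper97.MR.WB
import Pool.Agent.helper98.MR.W4

/-!
# Slice rank of tensors of order four, boundedly many values (in particular finite fields)

Q1 of MP_b48e27_co for order `d = 4` and the slice rank, over all fields, with a bound `G m l` which depends only on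
`l` and on a bound `m` for the number of different values of the tensor; in particular over every finite field
(`m` the number of its elements), of any characteristic.

Proof: as in `SliceRankOrderFour` the tensor has a minor as required or is a sum of slices and of products
`A(x,y) B(z,w)` etc. of bounded number, and the factors have boundedly many values. A Ramsey argument gives minors
whose entries, and whose factors, depend only on the order type of four integers; such a tensor is of the form
`F(cmp x y, cmp z w) + G(cmp x z, cmp y w) + H(cmp x w, cmp y z)` up to sums of functions of three variables. If `F` is not a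
sum `a(r) + b(s)`, there are positions for the directions `x, y` in one interval and for `z, w` in another one for
which the minor has slice rank `l`.
-/

set_option autoImplicit false

open Finset

namespace Pool.Agent.Results.MP_b48e27_co.SliceRankFourFewValues

open Pool.Agent.RRank Pool.Agent.helper35.MR

theorem sa4 : SA4_stmt :=
  have hHLB : HLB_stmt := HLB HV0 SLC
  have hWA : WA_stmt := WA (PF RB) DT POS
  have hWB : WB_stmt := WB (WBF RB DT) DT POS
  have hWC : WC_stmt := WC (WCF RB DT KER) (PF RB) DT POS
  have hRG3 : RG3_stmt := RG3 (RG (W4 hWA hWB hWC))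
  have hP1 : P1_stmt := P1 RAM (BLK CUB) LW
  SA4 hHLB (SAF EXP JC hP1 (TR CMR) CMR (FRM CP) hRG3 (FS4 SLC))

/-- Q1 for the slice rank and order four, boundedly many values: there is a function `G` such that for every field
`K` every order-4 tensor over `K` with at most `m` different values and of slice rank at least `G m l` has a minor
with all sides of size at most `l` and of slice rank at least `l`. -/
theorem result : ∃ G : ℕ → ℕ → ℕ, ∀ (K : Type) [Field K] (Q : Fin 4 → Type) [∀ α, Finite (Q α)]
    (T : ((α : Fin 4) → Q α) → K) (m l : ℕ), (Set.range T).ncard ≤ m →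
    (G m l : ℕ∞) ≤ rank (slices 4) T →
    ∃ X : (α : Fin 4) → Finset (Q α), (∀ α, (X α).card ≤ l) ∧
      (l : ℕ∞) ≤ rank (slices 4) (minor T X) := by
  obtain ⟨G, hG⟩ := sa4
  exact ⟨G, fun K _ Q _ T m l hm hr => hG K Q T m l ⟨Set.finite_range T, hm⟩ hr⟩

end Pool.Agent.Results.MP_b48e27_co.SliceRankFourFewValues
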